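import Pool.Agent.Helper14.LiouvilleProof

/-!
# A non-amenable group with a faithful action that is `n`-Liouville for every `n`

The definitions are in `Pool/Agent/Helper14/LiouvilleDefs.lean`, the proof is in
`Pool/Agent/Helper14/LiouvilleProof.lean`.
-/

set_option autoImplicit false

namespace Pool.Agent.Results.MP_2579e4_al.Counterexample

open Pool.Agent.Helper14.Liouville

/-- There is a finitely generated non-amenable group with a faithful action on a set `X` and a
symmetric non-degenerate measure for which the induced action on `n`-subsets is Liouville for
every `n`. -/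
theorem result :
    ∃ (G : Type) (_ : Group G) (X : Type) (_ : MulAction G X),
      Countable G ∧ Group.FG G ∧ FaithfulSMul G X ∧
      (∃ μ : PMF G, NonDegenerate μ ∧ (∀ g, μ g⁻¹ = μ g) ∧
        ∀ n : ℕ, 1 ≤ n → LiouvilleOnSubsets G X μ n) ∧
      ¬ Amenable G :=
  Pool.Agent.Helper14.Liouville.main

end Pool.Agent.Results.MP_2579e4_al.Counterexample
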